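import Mathlib

set_option autoImplicit false

/-!
# MP_332e42_an, Q1: the T-strong open set condition can fail

`d = 1`, `R = 2`, `B = {b}`: every complete set of representatives `B'` containing `b` is
`{b, b + a}` with `a` odd, the attractor of `B` is the point `b` and it is an end point of the
attractor of `B'`.
-/

open Set

namespace Pool.Agent.Results.MP_332e42_an.OneMap

/-- `K` is the attractor `T(R, B)`: a nonempty compact set with `K = ⋃_b R⁻¹ (K + b)` -/
def IsAttr {d : ℕ} (R : Matrix (Fin d) (Fin d) ℤ) (B : Set (Fin d → ℤ)) (K : Set (Fin d → ℝ)) :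
    Prop :=
  K.Nonempty ∧ IsCompact K ∧
    K = {x | ∃ b ∈ B, ∃ y ∈ K, (R.map (Int.cast : ℤ → ℝ)).mulVec x = y + fun i => (b i : ℝ)}

/-- every eigenvalue of `R` has modulus larger than one -/
def Expansive {d : ℕ} (R : Matrix (Fin d) (Fin d) ℤ) : Prop :=
  ∀ z : ℂ, (R.map (Int.cast : ℤ → ℂ)).charpoly.IsRoot z → 1 < ‖z‖

/-- congruence modulo the lattice `R ℤ ^ d` -/
def Cong {d : ℕ} (R : Matrix (Fin d) (Fin d) ℤ) (v w : Fin d → ℤ) : Prop :=
  ∃ u : Fin d → ℤ, v - w = R.mulVec u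

/-- no two distinct elements are congruent modulo `R ℤ ^ d` -/
def Simple {d : ℕ} (R : Matrix (Fin d) (Fin d) ℤ) (B : Set (Fin d → ℤ)) : Prop :=
  ∀ v ∈ B, ∀ w ∈ B, Cong R v w → v = w

/-- a complete set of representatives modulo `R ℤ ^ d` -/
def Complete {d : ℕ} (R : Matrix (Fin d) (Fin d) ℤ) (B : Set (Fin d → ℤ)) : Prop :=
  Simple R B ∧ ∀ v, ∃ w ∈ B, Cong R v w

/-- the `T`-strong open set condition -/
def TSOSC {d : ℕ} (R : Matrix (Fin d) (Fin d) ℤ) (B : Set (Fin d → ℤ)) : Prop :=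
  ∃ B' : Set (Fin d → ℤ), Complete R B' ∧ B ⊆ B' ∧
    ∃ K L : Set (Fin d → ℝ), IsAttr R B K ∧ IsAttr R B' L ∧ (K ∩ interior L).Nonempty

/-- the matrix `(2)` -/
def R : Matrix (Fin 1) (Fin 1) ℤ := !![2]

lemma R_mul (x : Fin 1 → ℝ) : (R.map (Int.cast : ℤ → ℝ)).mulVec x = fun _ => 2 * x 0 := by
  funext i
  fin_cases i
  simp [R, Matrix.mulVec, dotProduct]

lemma R_mulZ (x : Fin 1 → ℤ) : R.mulVec x = fun _ => 2 * x 0 := by
  funext i
  fin_cases i
  simp [R, Matrix.mulVec, dotProduct]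

lemma expansive : Expansive R := by
  intro z hz
  have h1 : (R.map (Int.cast : ℤ → ℂ)).charpoly = Polynomial.X - Polynomial.C 2 := by
    unfold Matrix.charpoly
    rw [Matrix.det_fin_one]
    simp [R]
  rw [h1] at hz
  simp only [Polynomial.IsRoot.def, Polynomial.eval_sub, Polynomial.eval_X, Polynomial.eval_C] at hz
  have : z = 2 := by linear_combination hz
  rw [this]
  norm_num

/-- **Q1, the negated form.** For `d = 1`, `R = 2` and any `B` with one element, the affine IFS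
does not satisfy the `T`-strong open set condition. -/
theorem main (b : Fin 1 → ℤ) : ¬ TSOSC R {b} := by
  rintro ⟨B', hB', hsub, K, L, hK, hL, x, hxK, hxL⟩
  have hbB : b ∈ B' := hsub rfl
  -- `K = {b}`
  obtain ⟨-, hKc, hKe⟩ := hK
  have hK2 : ∀ x ∈ K, (fun _ => 2 * x 0 - (b 0 : ℝ)) ∈ K := by
    intro x hx
    rw [hKe] at hx
    obtain ⟨b', hb', y, hy, h⟩ := hx
    rw [mem_singleton_iff.1 hb', R_mul] at h
    have h0 := congrFun h 0
    simp only [Pi.add_apply] at h0
    have : (fun _ : Fin 1 => 2 * x 0 - (b 0 : ℝ)) = y := by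
      funext i
      fin_cases i
      simp only [Fin.zero_eta]
      linarith
    rw [this]; exact hy
  have hpow : ∀ n : ℕ, ∀ x ∈ K, (fun _ => (b 0 : ℝ) + 2 ^ n * (x 0 - b 0)) ∈ K := by
    intro n
    induction n with
    | zero =>
      intro x hx
      have : (fun _ : Fin 1 => (b 0 : ℝ) + 2 ^ 0 * (x 0 - b 0)) = x := by
        funext i; fin_cases i; simp
      rw [this]; exact hx
    | succ n ih =>
      intro x hx
      have h1 := hK2 _ (ih x hx)
      have : (fun _ : Fin 1 => (b 0 : ℝ) + 2 ^ (n + 1) * (x 0 - b 0))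
          = fun _ => 2 * ((b 0 : ℝ) + 2 ^ n * (x 0 - b 0)) - (b 0 : ℝ) := by
        funext i; ring
      rw [this]; exact h1
  have hx0 : x 0 = b 0 := by
    by_contra hne
    obtain ⟨C, hC⟩ := hKc.isBounded.exists_norm_le
    have hpos : 0 < |x 0 - b 0| := abs_pos.2 (sub_ne_zero.2 hne)
    obtain ⟨n, hn⟩ := pow_unbounded_of_one_lt ((C + |(b 0 : ℝ)|) / |x 0 - b 0|) (one_lt_two (α := ℝ))
    rw [div_lt_iff₀ hpos] at hn
    have h1 := hC _ (hpow n x hxK)
    have h2 := (norm_le_pi_norm (fun _ : Fin 1 => (b 0 : ℝ) + 2 ^ n * (x 0 - b 0)) 0).trans h1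
    rw [Real.norm_eq_abs] at h2
    have h3 : |(2 : ℝ) ^ n * (x 0 - b 0)| ≤ |(b 0 : ℝ) + 2 ^ n * (x 0 - b 0)| + |(b 0 : ℝ)| := by
      calc |(2 : ℝ) ^ n * (x 0 - b 0)| = |((b 0 : ℝ) + 2 ^ n * (x 0 - b 0)) - b 0| := by ring_nf
        _ ≤ _ := abs_sub _ _
    rw [abs_mul, abs_of_pos (by positivity : (0 : ℝ) < 2 ^ n)] at h3
    linarith
  -- the other digit
  obtain ⟨c, hc, u, hu⟩ := hB'.2 (b + 1)
  rw [R_mulZ] at hu
  have hu0 := congrFun hu 0
  simp only [Pi.sub_apply, Pi.add_apply, Pi.one_apply] at hu0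
  set a : ℤ := c 0 - b 0 with ha
  have ha0 : a ≠ 0 := by omega
  have haR : (a : ℝ) ≠ 0 := by exact_mod_cast ha0
  -- all digits are `b` or `c`
  have hdig : ∀ v ∈ B', v = b ∨ v = c := by
    intro v hv
    rcases Int.even_or_odd' (v 0 - b 0) with ⟨k, hk | hk⟩
    · left
      apply hB'.1 v hv b hbB
      refine ⟨fun _ => k, ?_⟩
      rw [R_mulZ]
      funext i; fin_cases i
      simpa using hk
    · right
      apply hB'.1 v hv c hc
      refine ⟨fun _ => k + u 0, ?_⟩
      rw [R_mulZ]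
      funext i; fin_cases i
      simp only [Pi.sub_apply, Fin.zero_eta]
      omega
  -- `L` lies on one side of `b`
  obtain ⟨hLne, hLc, hLe⟩ := hL
  have hside : ∀ y ∈ L, 0 ≤ (a : ℝ) * (y 0 - b 0) := by
    obtain ⟨y0, hy0, hmin⟩ := hLc.exists_isMinOn hLne
      (f := fun y : Fin 1 → ℝ => (a : ℝ) * (y 0 - b 0)) (by fun_prop)
    have hm : 0 ≤ (a : ℝ) * (y0 0 - b 0) := by
      have h1 := hy0
      rw [hLe] at h1
      obtain ⟨v, hv, y, hy, h⟩ := h1
      rw [R_mul] at h
      have h0 := congrFun h 0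
      simp only [Pi.add_apply] at h0
      have h2 : (a : ℝ) * (y0 0 - b 0) ≤ (a : ℝ) * (y 0 - b 0) := hmin hy
      have h3 : 0 ≤ (a : ℝ) * ((v 0 : ℝ) - b 0) := by
        rcases hdig v hv with rfl | rfl
        · rw [sub_self, mul_zero]
        · have : ((v 0 : ℝ) - b 0) = a := by rw [ha]; push_cast; ring
          rw [this]
          exact mul_self_nonneg _
      have h4 : 2 * ((a : ℝ) * (y0 0 - b 0)) = a * (y 0 - b 0) + a * ((v 0 : ℝ) - b 0) := by
        have : 2 * (y0 0 - b 0) = (y 0 - b 0) + ((v 0 : ℝ) - b 0) := by linarith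
        calc 2 * ((a : ℝ) * (y0 0 - b 0)) = a * (2 * (y0 0 - b 0)) := by ring
          _ = _ := by rw [this]; ring
      linarith
    intro y hy
    exact hm.trans (hmin hy)
  -- contradiction
  obtain ⟨ε, hε, hball⟩ := Metric.isOpen_iff.1 isOpen_interior x hxL
  have hapos : 0 < |(a : ℝ)| := abs_pos.2 haR
  set t : ℝ := ε / (2 * |(a : ℝ)|) with ht
  have ht0 : 0 < t := by positivity
  have hmem : (fun _ : Fin 1 => x 0 - t * a) ∈ Metric.ball x ε := by
    rw [Metric.mem_ball, dist_eq_norm]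
    have : ‖(fun _ : Fin 1 => x 0 - t * a) - x‖ ≤ ε / 2 := by
      rw [pi_norm_le_iff_of_nonneg (by positivity)]
      intro i
      fin_cases i
      simp only [Pi.sub_apply, Fin.zero_eta, Real.norm_eq_abs]
      have : x 0 - t * a - x 0 = -(t * a) := by ring
      rw [this, abs_neg, abs_mul, abs_of_pos ht0, ht]
      apply le_of_eq
      field_simp
    linarith
  have h1 := hside _ (interior_subset (hball hmem))
  change 0 ≤ (a : ℝ) * ((x 0 - t * a) - b 0) at h1
  rw [hx0] at h1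
  have h2 : (a : ℝ) * ((b 0 : ℝ) - t * a - b 0) = -(t * a ^ 2) := by ring
  rw [h2] at h1
  have : 0 < t * (a : ℝ) ^ 2 := by positivity
  linarith

/-- **Q1, the negated form.** There are `d ≥ 1`, an expansive integer matrix `R` and a nonempty
finite simple digit set `B` such that `T(R, B)` misses the interior of `T(R, B')` for every
complete set of representatives `B' ⊇ B`. In fact `d = 1`, `R = 2`, and `B` any set with one
element. -/
theorem result : Expansive R ∧ ∀ b : Fin 1 → ℤ, Simple R {b} ∧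
    ∀ B' : Set (Fin 1 → ℤ), Complete R B' → {b} ⊆ B' →
      ∀ K L : Set (Fin 1 → ℝ), IsAttr R {b} K → IsAttr R B' L → K ∩ interior L = ∅ := by
  refine ⟨expansive, fun b => ⟨?_, fun B' hB' hsub K L hK hL => ?_⟩⟩
  · intro v hv w hw _
    rw [mem_singleton_iff.1 hv, mem_singleton_iff.1 hw]
  · by_contra hne
    exact main b ⟨B', hB', hsub, K, L, hK, hL, nonempty_iff_ne_empty.2 hne⟩

end Pool.Agent.Results.MP_332e42_an.OneMap
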